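import Pool.Agent.E8helper6.CTK3.Asy3
import Pool.Agent.E8helper98.CTL3.Den
import Pool.Agent.E8helper20.CTM.StmD

/-!
# Project CTM, part M7: the density for a general property `P`

Adapted from the file `E8helper98/CTL3/Asy.lean` of helper98 (and `E8helper6/CTK3/Asy3.lean` of helper6,
`R419/KL/Asy.lean` of helper419).
-/

set_option autoImplicit false

open scoped Classical
open Finset Filter

namespace Pool.Agent.E8helper63.CTM

open Pool.Agent.Y692.QS (Ei w nr toC)
open Pool.Agent.Y715.T.RecG (Pq)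
open Pool.Agent.Y699.E (nrm QB pq_nrm_two)
open Pool.Agent.Y703.CX (jj XX eL zz kk eL_tendsto logX_eq rpow_eL HH NN ev_eL one_le_exp
  HH_ge HH_le HH_pos kk_ge kk_le X_pos one_add_log lin_le zz_ge zz_pos)
open Pool.Agent.Y703.CQ (Sml sml_of sml_add)
open Pool.Agent.Y703.XK (sm la bl sml_eps kk_pos kap kap_nonneg kap_pow sml_main cmp)
open Pool.Agent.R419.KF (SG SG_card sml_many sml_cut sml_coll mem_SG)
open Pool.Agent.E8helper20.CTK3 (S3 RR3)
open Pool.Agent.E8helper6.CTK3 (S3_sub S3_card)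
open Pool.Agent.E8helper20.CTL3 (AsyP)
open Pool.Agent.E8helper20.CTM

/-- the sets outside the regular part -/
theorem out_sub9 (M : Finset Ei) (X z H k V : ℕ) :
    S3 M X \ ((RRM M X z H k V).filter fun S => Nd9 (sm z S) (la z S)) ⊆
      (((((SG X).filter fun S => k < S.card) ∪
      ((SG X).filter fun S => S.card ≤ k ∧
        X < (∏ π ∈ sm z S, nrm π) * ∏ π ∈ la z S, XX H (bl H π))) ∪
      ((SG X).filter fun S => ¬ Set.InjOn (bl H) (la z S : Set Ei))) ∪
      ((SG X).filter fun S => S.card ≤ k ∧ (la z S).card ≤ (sm z S).card + V)) ∪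
      ((SG X).filter fun S => S.card ≤ k ∧ ¬ Nd9 (sm z S) (la z S)) := by
  intro S hS
  rw [Finset.mem_sdiff, Finset.mem_filter] at hS
  obtain ⟨h1', h2⟩ := hS
  have h1 : S ∈ SG X := S3_sub M X h1'
  simp only [mem_union, mem_filter]
  by_contra hc
  push Not at hc
  obtain ⟨⟨⟨⟨c1, c2⟩, c3⟩, c4⟩, c5⟩ := hc
  have d1 : S.card ≤ k := c1 h1
  have d2 := c2 h1 d1
  have d3 := c3 h1
  have d4 := c4 h1 d1
  have d5 := c5 h1 d1
  apply h2
  refine ⟨?_, d5⟩
  unfold RRM RR3
  rw [mem_filter]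
  exact ⟨h1', d3, d1, d2, d4⟩

/-- **the asymptotics for one `M`** -/
theorem asyM {P : Finset Ei → Finset Ei → Prop} {c K : ℝ} (hK0 : 0 ≤ K) (hc0 : 0 ≤ c)
    (hc1 : c ≤ 1) (hK : KeyM P c K) (hB : BadM) (M : Finset Ei) (ε : ℝ)
    (hε : 0 < ε) : ∃ X₀ : ℕ, ∀ X : ℕ, X₀ ≤ X →
      |(((S3 M X).filter (P M)).card : ℝ) - c * ((S3 M X).card : ℝ)| ≤ ε * X := by
  obtain ⟨C, hC1, hkey⟩ := hK
  obtain ⟨D, hD⟩ := Pool.Agent.R419.KF.Cnt.t_CNT
  obtain ⟨V', hV'⟩ := exists_pow_lt_of_lt_one (show (0 : ℝ) < ε / (32 * (K + 1)) by positivity)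
    (show (1 / 3 : ℝ) < 1 by norm_num)
  obtain ⟨V, hVd⟩ : ∃ V, V = V' + 2 := ⟨_, rfl⟩
  have hV1 : 2 ≤ V := by omega
  have hV : (1 / 3 : ℝ) ^ V < ε / (32 * (K + 1)) := by
    refine lt_of_le_of_lt ?_ hV'
    rw [hVd]
    exact pow_le_pow_of_le_one (by norm_num) (by norm_num) (by omega)
  have s1 := sml_many hD
  have s2 := sml_cut hD
  have s3 := sml_coll hD
  have s4 := sml_eps (Pool.Agent.R419.KF.Few.t_FEW V)
  have s5 := sml_eps hB
  have s6 := sml_main hC1
  have s := sml_add (sml_add (sml_add (sml_add (sml_add s1 s2) s3) s4) s5) s6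
  have hδ : (0 : ℝ) < ε / 2 := by positivity
  set m : ℕ := M.sup nrm with hm
  rw [← eventually_atTop]
  filter_upwards [s (ε / 2) hδ, ev_eL (max 1 (2 * m))] with X hX hl'
  have hl : 1 ≤ eL X := (le_max_left _ _).trans hl'
  have hlm : 2 * (m : ℝ) ≤ eL X := (le_max_right _ _).trans hl'
  rw [neg_zero, zero_mul, Real.exp_zero, mul_one] at hX
  have hl0 : 0 < eL X := by linarith
  have hXp := X_pos hl0
  have hXp' : (0 : ℝ) < X := by exact_mod_cast hXp
  have hN : (HH X : ℝ) * Real.log X < NN X := by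
    unfold NN
    push_cast
    exact Nat.lt_floor_add_one _
  have hMz : ∀ q ∈ M, nrm q ≤ zz X := by
    intro q hq
    have h5 : nrm q ≤ m := Finset.le_sup hq
    refine h5.trans ?_
    have h6 := zz_ge hl
    have h7 : eL X ≤ Real.exp ((eL X) ^ 3) := by
      have h8 : eL X ≤ (eL X) ^ 3 := by
        have h9 : (eL X) ^ 3 = eL X * (eL X * eL X) := by ring
        rw [h9]
        nlinarith
      have := Real.add_one_le_exp ((eL X) ^ 3)
      linarith
    have h8 : (m : ℝ) ≤ zz X := by linarith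
    exact_mod_cast h8
  have hmain := hkey M X (zz X) (HH X) (kk X) V (NN X) (kap C X) hMz hV1 hXp (HH_pos hl0)
    (zz_pos hl) (kap_nonneg hC1 X) (kap_pow hC1 hl) hN
  set T := (RRM M X (zz X) (HH X) (kk X) V).filter fun S => Nd9 (sm (zz X) S) (la (zz X) S) with hT
  have hTG : (RRM M X (zz X) (HH X) (kk X) V).filter
      (fun S => Nd9 (sm (zz X) S) (la (zz X) S) ∧ P M S) = T.filter (P M) := by
    rw [hT, filter_filter]
  rw [hTG] at hmain
  have hTS : T ⊆ S3 M X := (filter_subset _ _).trans (filter_subset _ _)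
  have hRS : ((RRM M X (zz X) (HH X) (kk X) V).card : ℝ) ≤ ((S3 M X).card : ℝ) := by
    exact_mod_cast card_le_card (filter_subset _ _)
  have hcmp := cmp (P M) T (S3 M X) hTS c hc0 hc1
  have hout : ((S3 M X \ T).card : ℝ) ≤
      ((((SG X).filter fun S => kk X < S.card).card : ℝ) +
      (((SG X).filter fun S => S.card ≤ kk X ∧
        X < (∏ π ∈ sm (zz X) S, nrm π) * ∏ π ∈ la (zz X) S, XX (HH X) (bl (HH X) π)).card : ℝ) +
      (((SG X).filter fun S => ¬ Set.InjOn (bl (HH X)) (la (zz X) S : Set Ei)).card : ℝ) +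
      (((SG X).filter fun S => S.card ≤ kk X ∧
        (la (zz X) S).card ≤ (sm (zz X) S).card + V).card : ℝ)) +
      (((SG X).filter fun S => S.card ≤ kk X ∧ ¬ Nd9 (sm (zz X) S) (la (zz X) S)).card : ℝ) := by
    have g := card_le_card (out_sub9 M X (zz X) (HH X) (kk X) V)
    rw [← hT] at g
    have g2 := (g.trans (card_union_le _ _)).trans (Nat.add_le_add_right ((card_union_le _ _).trans
      (Nat.add_le_add_right ((card_union_le _ _).trans
      (Nat.add_le_add_right (card_union_le _ _) _)) _)) _)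
    exact_mod_cast g2
  have g1 : K * (1 / 3 : ℝ) ^ V * ((RRM M X (zz X) (HH X) (kk X) V).card : ℝ) ≤ ε / 2 * X := by
    have hK1 : (0 : ℝ) < K + 1 := by linarith
    calc K * (1 / 3 : ℝ) ^ V * ((RRM M X (zz X) (HH X) (kk X) V).card : ℝ) ≤
        (K + 1) * (ε / (32 * (K + 1))) * (16 * X) := by
          have := hRS.trans (S3_card M X)
          have hKK : K ≤ K + 1 := by linarith
          gcongr
      _ = ε / 2 * X := by
        field_simp
        ring
  linarith

/-- M7 DENM -/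
theorem t_DENM : S_DENM := fun hLo hB _ _ _ hK0 hc0 hc1 hK T hT =>
  Pool.Agent.E8helper98.CTL3.t_DENL hLo _ _ hc0 hc1
    (fun M ε hε => asyM hK0 hc0 hc1 hK hB M ε hε) T hT

end Pool.Agent.E8helper63.CTM
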